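import Pool.Agent.W902.C6.Stm2
import Pool.Agent.W348.C6.Rig

/-!
# Rigidity of large standard configurations, the common point is allowed
-/

set_option autoImplicit false

open Pool.Agent.H800R3 Pool.Agent.W902.C6

namespace Pool.Agent.W348.C6.Rig2

open Pool.Agent.W348.C6.Rig (o mem_std four two_more)

theorem key2 (u v w : Pt) (huv : u ≠ v) (hu : u.2 = 1) (hv : v.2 = 1) (hD : D u v w = 0) :
    w.2 = 1 := by
  have hne : v.1 - u.1 ≠ 0 := by
    intro h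
    exact huv (Prod.ext (by linarith) (by rw [hu, hv]))
  unfold D at hD
  rw [hu, hv] at hD
  have : (v.1 - u.1) * (w.2 - 1) = 0 := by linarith
  rcases mul_eq_zero.1 this with h | h
  · exact absurd h hne
  · linarith

theorem key1 (u v w : Pt) (huv : u ≠ v) (hu : u.1 = 1) (hv : v.1 = 1) (hD : D u v w = 0) :
    w.1 = 1 := by
  have hne : v.2 - u.2 ≠ 0 := by
    intro h
    exact huv (Prod.ext (by rw [hu, hv]) (by linarith))
  unfold D at hD
  rw [hu, hv] at hD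
  have : (v.2 - u.2) * (w.1 - 1) = 0 := by linarith
  rcases mul_eq_zero.1 this with h | h
  · exact absurd h hne
  · linarith

theorem exists_ne_one (A : Finset ℝ) (h : 4 ≤ A.card) : ∃ s ∈ A, s ≠ 1 := by
  obtain ⟨c, hc, d, hd, hcd, h1, -, -, -⟩ := two_more A h 1 1
  exact ⟨c, hc, h1.symm⟩

open Classical in
theorem main : S_rig2 := by
  intro A T A' T' hA hT hA' hT' h1 h1' hgt hlt hS
  obtain ⟨e, he⟩ := hS
  set g : Pt → Pt := fun x => if h : x ∈ std true A T then (e ⟨x, h⟩ : Pt) else o with hg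
  have hgm : ∀ x (h : x ∈ std true A T), g x = (e ⟨x, h⟩ : Pt) := fun x h => by
    rw [hg]; simp only; rw [dif_pos h]
  have gmem : ∀ x ∈ std true A T, g x ∈ std true A' T' := fun x h => by
    rw [hgm x h]; exact (e ⟨x, h⟩).2
  have ginj : ∀ x ∈ std true A T, ∀ y ∈ std true A T, x ≠ y → g x ≠ g y := by
    intro x hx y hy hxy h
    rw [hgm x hx, hgm y hy] at h
    exact hxy (congrArg Subtype.val (e.injective (Subtype.ext h)))
  have gsurj : ∀ y ∈ std true A' T', ∃ x ∈ std true A T, g x = y := by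
    intro y hy
    obtain ⟨⟨x, hx⟩, hxy⟩ := e.surjective ⟨y, hy⟩
    refine ⟨x, hx, ?_⟩
    rw [hgm x hx, hxy]
  have gor : ∀ a ∈ std true A T, ∀ b ∈ std true A T, ∀ c ∈ std true A T,
      SignType.sign (D (g a) (g b) (g c)) = SignType.sign (D a b c) := by
    intro a ha b hb c hc
    rw [hgm a ha, hgm b hb, hgm c hc]
    exact he ⟨a, ha⟩ ⟨b, hb⟩ ⟨c, hc⟩
  have gz : ∀ a ∈ std true A T, ∀ b ∈ std true A T, ∀ c ∈ std true A T,
      D a b c = 0 → D (g a) (g b) (g c) = 0 := by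
    intro a ha b hb c hc h
    have := gor a ha b hb c hc
    rw [h, sign_zero] at this
    exact sign_eq_zero_iff.1 this
  have gp : ∀ a ∈ std true A T, ∀ b ∈ std true A T, ∀ c ∈ std true A T,
      0 < D a b c → 0 < D (g a) (g b) (g c) := by
    intro a ha b hb c hc h
    have := gor a ha b hb c hc
    rw [sign_pos h] at this
    exact sign_eq_one_iff.1 this
  have gn : ∀ a ∈ std true A T, ∀ b ∈ std true A T, ∀ c ∈ std true A T,
      D a b c < 0 → D (g a) (g b) (g c) < 0 := by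
    intro a ha b hb c hc h
    have := gor a ha b hb c hc
    rw [sign_neg h] at this
    exact sign_eq_neg_one_iff.1 this
  have m1 : ∀ s ∈ A, ((s, 1) : Pt) ∈ std true A T := fun s hs =>
    (mem_std A T _).2 (Or.inr (Or.inl ⟨rfl, hs⟩))
  have m2 : ∀ t ∈ T, ((1, t) : Pt) ∈ std true A T := fun t ht =>
    (mem_std A T _).2 (Or.inr (Or.inr ⟨rfl, ht⟩))
  have m0 : o ∈ std true A T := (mem_std A T _).2 (Or.inl rfl)
  have pair1 : ∀ s ∈ A, ∀ s' ∈ A, s ≠ s' →
      ((g (s, 1)).2 = 1 ∧ (g (s', 1)).2 = 1) ∨ ((g (s, 1)).1 = 1 ∧ (g (s', 1)).1 = 1) := by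
    intro s hs s' hs' hss
    obtain ⟨c, hc, d, hd, hcd, hac, had, hbc, hbd⟩ := two_more A hA s s'
    have hD : ∀ u v w : ℝ, D ((u, 1) : Pt) (v, 1) (w, 1) = 0 := by
      intro u v w
      simp [D]
    have hne : ∀ u v : ℝ, u ≠ v → ((u, 1) : Pt) ≠ (v, 1) := fun u v h h' =>
      h (congrArg Prod.fst h')
    refine four A' T' (g (s, 1)) (g (s', 1)) (g (c, 1)) (g (d, 1)) (gmem _ (m1 _ hs))
      (gmem _ (m1 _ hs')) (gmem _ (m1 _ hc)) (gmem _ (m1 _ hd))
      (ginj _ (m1 _ hs) _ (m1 _ hs') (hne _ _ hss)) (ginj _ (m1 _ hs) _ (m1 _ hc) (hne _ _ hac))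
      (ginj _ (m1 _ hs) _ (m1 _ hd) (hne _ _ had)) (ginj _ (m1 _ hs') _ (m1 _ hc) (hne _ _ hbc))
      (ginj _ (m1 _ hs') _ (m1 _ hd) (hne _ _ hbd)) (ginj _ (m1 _ hc) _ (m1 _ hd) (hne _ _ hcd))
      ?_ ?_ ?_ ?_ ?_ ?_ ?_ ?_ ?_ ?_ ?_ ?_ <;>
    · refine gz _ (m1 _ ?_) _ (m1 _ ?_) _ (m1 _ ?_) (hD _ _ _) <;> assumption
  have pair2 : ∀ s ∈ T, ∀ s' ∈ T, s ≠ s' →
      ((g (1, s)).2 = 1 ∧ (g (1, s')).2 = 1) ∨ ((g (1, s)).1 = 1 ∧ (g (1, s')).1 = 1) := by
    intro s hs s' hs' hss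
    obtain ⟨c, hc, d, hd, hcd, hac, had, hbc, hbd⟩ := two_more T hT s s'
    have hD : ∀ u v w : ℝ, D ((1, u) : Pt) (1, v) (1, w) = 0 := by
      intro u v w
      simp [D]
    have hne : ∀ u v : ℝ, u ≠ v → ((1, u) : Pt) ≠ (1, v) := fun u v h h' =>
      h (congrArg Prod.snd h')
    refine four A' T' (g (1, s)) (g (1, s')) (g (1, c)) (g (1, d)) (gmem _ (m2 _ hs))
      (gmem _ (m2 _ hs')) (gmem _ (m2 _ hc)) (gmem _ (m2 _ hd))
      (ginj _ (m2 _ hs) _ (m2 _ hs') (hne _ _ hss)) (ginj _ (m2 _ hs) _ (m2 _ hc) (hne _ _ hac))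
      (ginj _ (m2 _ hs) _ (m2 _ hd) (hne _ _ had)) (ginj _ (m2 _ hs') _ (m2 _ hc) (hne _ _ hbc))
      (ginj _ (m2 _ hs') _ (m2 _ hd) (hne _ _ hbd)) (ginj _ (m2 _ hc) _ (m2 _ hd) (hne _ _ hcd))
      ?_ ?_ ?_ ?_ ?_ ?_ ?_ ?_ ?_ ?_ ?_ ?_ <;>
    · refine gz _ (m2 _ ?_) _ (m2 _ ?_) _ (m2 _ ?_) (hD _ _ _) <;> assumption
  -- each line is mapped into one line
  obtain ⟨sp, hsp, hsp1⟩ := hgt
  obtain ⟨sm, hsm, hsm1⟩ := hlt
  have hspm : sm ≠ sp := by linarith
  obtain ⟨t₁, ht₁, t₂, ht₂, ht₁₂⟩ : ∃ t₁ ∈ T, ∃ t₂ ∈ T, t₁ < t₂ := by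
    obtain ⟨a, ha, b, hb, hab⟩ := Finset.one_lt_card.1 (by omega : 1 < T.card)
    rcases lt_or_gt_of_ne hab with h | h
    · exact ⟨a, ha, b, hb, h⟩
    · exact ⟨b, hb, a, ha, h⟩
  have hD1 : ∀ u v w : ℝ, D ((u, 1) : Pt) (v, 1) (w, 1) = 0 := by
    intro u v w
    simp [D]
  have hD2 : ∀ u v w : ℝ, D ((1, u) : Pt) (1, v) (1, w) = 0 := by
    intro u v w
    simp [D]
  have hne1 : ((sp, 1) : Pt) ≠ (sm, 1) := fun h => hspm (congrArg Prod.fst h).symm
  have hne2 : ((1, t₁) : Pt) ≠ (1, t₂) := fun h => ht₁₂.ne (congrArg Prod.snd h)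
  have gne1 := ginj _ (m1 _ hsp) _ (m1 _ hsm) hne1
  have gne2 := ginj _ (m2 _ ht₁) _ (m2 _ ht₂) hne2
  have line1 : (∀ s ∈ A, (g (s, 1)).2 = 1) ∨ (∀ s ∈ A, (g (s, 1)).1 = 1) := by
    rcases pair1 sp hsp sm hsm (Ne.symm hspm) with h | h
    · left
      intro s hs
      exact key2 _ _ _ gne1 h.1 h.2 (gz _ (m1 _ hsp) _ (m1 _ hsm) _ (m1 _ hs) (hD1 _ _ _))
    · right
      intro s hs
      exact key1 _ _ _ gne1 h.1 h.2 (gz _ (m1 _ hsp) _ (m1 _ hsm) _ (m1 _ hs) (hD1 _ _ _))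
  have line2 : (∀ s ∈ T, (g (1, s)).2 = 1) ∨ (∀ s ∈ T, (g (1, s)).1 = 1) := by
    rcases pair2 t₁ ht₁ t₂ ht₂ (ne_of_lt ht₁₂) with h | h
    · left
      intro s hs
      exact key2 _ _ _ gne2 h.1 h.2 (gz _ (m2 _ ht₁) _ (m2 _ ht₂) _ (m2 _ hs) (hD2 _ _ _))
    · right
      intro s hs
      exact key1 _ _ _ gne2 h.1 h.2 (gz _ (m2 _ ht₁) _ (m2 _ ht₂) _ (m2 _ hs) (hD2 _ _ _))
  have o2 : o.2 ≠ 1 := by simp [o]
  have o1 : o.1 ≠ 1 := by simp [o]
  have e1 : ∀ x : Pt, x.2 = 1 → x = (x.1, 1) := fun x h => Prod.ext rfl h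
  have e2 : ∀ x : Pt, x.1 = 1 → x = (1, x.2) := fun x h => Prod.ext h rfl
  have g0 : g o = o := by
    obtain ⟨x, hx, hxo⟩ := gsurj o ((mem_std A' T' _).2 (Or.inl rfl))
    rcases (mem_std A T x).1 hx with h | ⟨h, h'⟩ | ⟨h, h'⟩
    · rw [h] at hxo; exact hxo
    · exfalso
      rw [e1 x h] at hxo
      rcases line1 with hl | hl
      · have := hl _ h'
        rw [hxo] at this; exact o2 this
      · have := hl _ h'
        rw [hxo] at this; exact o1 this
    · exfalso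
      rw [e2 x h] at hxo
      rcases line2 with hl | hl
      · have := hl _ h'
        rw [hxo] at this; exact o2 this
      · have := hl _ h'
        rw [hxo] at this; exact o1 this
  rcases line1 with l1 | l1 <;> rcases line2 with l2 | l2
  · -- both into the first line
    exfalso
    obtain ⟨t', ht', ht1⟩ := exists_ne_one T' hT'
    obtain ⟨x, hx, hxo⟩ := gsurj (1, t') ((mem_std A' T' _).2 (Or.inr (Or.inr ⟨rfl, ht'⟩)))
    rcases (mem_std A T x).1 hx with h | ⟨h, h'⟩ | ⟨h, h'⟩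
    · rw [h, g0] at hxo
      exact o1 (congrArg Prod.fst hxo)
    · rw [e1 x h] at hxo
      have := l1 _ h'
      rw [hxo] at this
      exact ht1 this
    · rw [e2 x h] at hxo
      have := l2 _ h'
      rw [hxo] at this
      exact ht1 this
  · -- the good case
    have G1 : ∀ s ∈ A, g (s, 1) = ((g (s, 1)).1, 1) := fun s hs => e1 _ (l1 s hs)
    have G2 : ∀ t ∈ T, g (1, t) = (1, (g (1, t)).2) := fun t ht => e2 _ (l2 t ht)
    have mon1 : ∀ s ∈ A, ∀ s' ∈ A, s < s' → (g (s, 1)).1 < (g (s', 1)).1 := by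
      intro s hs s' hs' hss
      have h := gn o m0 (s, 1) (m1 s hs) (s', 1) (m1 s' hs') (by simp [D, o]; linarith)
      rw [g0, G1 s hs, G1 s' hs'] at h
      simp [D, o] at h
      linarith
    have mon2 : ∀ s ∈ T, ∀ s' ∈ T, s < s' → (g (1, s)).2 < (g (1, s')).2 := by
      intro s hs s' hs' hss
      have h := gp o m0 (1, s) (m2 s hs) (1, s') (m2 s' hs') (by simp [D, o]; linarith)
      rw [g0, G2 s hs, G2 s' hs'] at h
      simp [D, o] at h
      linarith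
    refine ⟨fun s => (g (s, 1)).1, fun t => (g (1, t)).2, ?_, ?_, ?_, ?_, mon1, mon2, ?_, ?_, ?_⟩
    · intro s hs
      rcases (mem_std A' T' _).1 (gmem _ (m1 s hs)) with h | ⟨-, h⟩ | ⟨h, -⟩
      · have := l1 s hs
        rw [h] at this; exact absurd this o2
      · exact h
      · rcases (mem_std A' T' _).1 (gmem _ (m1 s hs)) with h'' | ⟨-, h''⟩ | ⟨-, h''⟩
        · have := l1 s hs
          rw [h''] at this; exact absurd this o2
        · exact h''
        · rw [l1 s hs] at h''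
          show (g (s, 1)).1 ∈ A'
          rw [h]
          exact h1'.2 h''
    · intro s' hs'
      obtain ⟨x, hx, hxo⟩ := gsurj (s', 1) ((mem_std A' T' _).2 (Or.inr (Or.inl ⟨rfl, hs'⟩)))
      rcases (mem_std A T x).1 hx with h | ⟨h, h'⟩ | ⟨h, h'⟩
      · rw [h, g0] at hxo
        exact absurd (congrArg Prod.snd hxo) o2
      · refine ⟨x.1, h', ?_⟩
        rw [e1 x h] at hxo
        exact congrArg Prod.fst hxo
      · rw [e2 x h] at hxo
        have h3 := l2 _ h'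
        have h4 : (g (1, x.2)).2 = 1 := by rw [hxo]
        have h5 : D (g (sp, 1)) (g (sm, 1)) (g (1, x.2)) = 0 := by
          simp only [D, l1 sp hsp, l1 sm hsm, h4]
          ring
        have h6 : D (sp, 1) (sm, 1) (1, x.2) = 0 := by
          have h7 := gor _ (m1 _ hsp) _ (m1 _ hsm) _ (m2 _ h')
          rw [h5, sign_zero] at h7
          exact sign_eq_zero_iff.1 h7.symm
        have h8 : x.2 = 1 := key2 (sp, 1) (sm, 1) (1, x.2) hne1 rfl rfl h6
        refine ⟨1, h1.2 (h8 ▸ h'), ?_⟩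
        rw [h8] at hxo
        exact congrArg Prod.fst hxo
    · intro s hs
      rcases (mem_std A' T' _).1 (gmem _ (m2 s hs)) with h | ⟨h, -⟩ | ⟨-, h⟩
      · have := l2 s hs
        rw [h] at this; exact absurd this o1
      · rcases (mem_std A' T' _).1 (gmem _ (m2 s hs)) with h'' | ⟨-, h''⟩ | ⟨-, h''⟩
        · have := l2 s hs
          rw [h''] at this; exact absurd this o1
        · rw [l2 s hs] at h''
          show (g (1, s)).2 ∈ T'
          rw [h]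
          exact h1'.1 h''
        · exact h''
      · exact h
    · intro t' ht'
      obtain ⟨x, hx, hxo⟩ := gsurj (1, t') ((mem_std A' T' _).2 (Or.inr (Or.inr ⟨rfl, ht'⟩)))
      rcases (mem_std A T x).1 hx with h | ⟨h, h'⟩ | ⟨h, h'⟩
      · rw [h, g0] at hxo
        exact absurd (congrArg Prod.fst hxo) o1
      · rw [e1 x h] at hxo
        have h3 := l1 _ h'
        have h4 : (g (x.1, 1)).1 = 1 := by rw [hxo]
        have h5 : D (g (1, t₁)) (g (1, t₂)) (g (x.1, 1)) = 0 := by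
          simp only [D, l2 t₁ ht₁, l2 t₂ ht₂, h4]
          ring
        have h6 : D (1, t₁) (1, t₂) (x.1, 1) = 0 := by
          have h7 := gor _ (m2 _ ht₁) _ (m2 _ ht₂) _ (m1 _ h')
          rw [h5, sign_zero] at h7
          exact sign_eq_zero_iff.1 h7.symm
        have h8 : x.1 = 1 := key1 (1, t₁) (1, t₂) (x.1, 1) hne2 rfl rfl h6
        refine ⟨1, h1.1 (h8 ▸ h'), ?_⟩
        rw [h8] at hxo
        exact congrArg Prod.snd hxo
      · refine ⟨x.2, h', ?_⟩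
        rw [e2 x h] at hxo
        exact congrArg Prod.snd hxo
    · intro s hs t ht
      have h := gor o m0 (s, 1) (m1 s hs) (1, t) (m2 t ht)
      rw [g0, G1 s hs, G2 t ht] at h
      simpa [D, o] using h
    · intro s hs
      have h := gor (1, t₁) (m2 _ ht₁) (1, t₂) (m2 _ ht₂) (s, 1) (m1 s hs)
      rw [G1 s hs, G2 t₁ ht₁, G2 t₂ ht₂] at h
      have hm := mon2 t₁ ht₁ t₂ ht₂ ht₁₂
      have f1 : D (1, t₁) (1, t₂) (s, 1) = -((t₂ - t₁) * (s - 1)) := by simp [D]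
      have f2 : D (1, (g (1, t₁)).2) (1, (g (1, t₂)).2) ((g (s, 1)).1, 1) =
          -(((g (1, t₂)).2 - (g (1, t₁)).2) * ((g (s, 1)).1 - 1)) := by simp [D]
      rw [f1, f2, Left.sign_neg, Left.sign_neg, neg_inj, sign_mul, sign_mul,
        sign_pos (sub_pos.2 ht₁₂), sign_pos (sub_pos.2 hm), one_mul, one_mul] at h
      exact h
    · intro t ht
      have h := gor (sm, 1) (m1 _ hsm) (sp, 1) (m1 _ hsp) (1, t) (m2 t ht)
      rw [G2 t ht, G1 sm hsm, G1 sp hsp] at h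
      have hms : sm < sp := by linarith
      have hm := mon1 sm hsm sp hsp hms
      have f1 : D (sm, 1) (sp, 1) (1, t) = (sp - sm) * (t - 1) := by simp [D]
      have f2 : D ((g (sm, 1)).1, 1) ((g (sp, 1)).1, 1) (1, (g (1, t)).2) =
          ((g (sp, 1)).1 - (g (sm, 1)).1) * ((g (1, t)).2 - 1) := by simp [D]
      rw [f1, f2, sign_mul, sign_mul, sign_pos (sub_pos.2 hms), sign_pos (sub_pos.2 hm),
        one_mul, one_mul] at h
      exact h
  · -- the lines are exchanged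
    exfalso
    have G1 : ∀ s ∈ A, g (s, 1) = (1, (g (s, 1)).2) := fun s hs => e2 _ (l1 s hs)
    have G2 : ∀ t ∈ T, g (1, t) = ((g (1, t)).1, 1) := fun t ht => e1 _ (l2 t ht)
    have h1 := gp o m0 (sp, 1) (m1 sp hsp) (sm, 1) (m1 sm hsm) (by simp [D, o]; linarith)
    rw [g0, G1 sp hsp, G1 sm hsm] at h1
    simp [D, o] at h1
    have h2 := gp (1, t₁) (m2 _ ht₁) (1, t₂) (m2 _ ht₂) o m0 (by simp [D, o]; linarith)
    rw [g0, G2 t₁ ht₁, G2 t₂ ht₂] at h2
    simp [D, o] at h2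
    have h3 := gn (1, t₁) (m2 _ ht₁) (1, t₂) (m2 _ ht₂) (sp, 1) (m1 _ hsp) (by
      simp [D]; nlinarith)
    rw [G2 t₁ ht₁, G2 t₂ ht₂, G1 sp hsp] at h3
    simp [D] at h3
    have h4 := gp (1, t₁) (m2 _ ht₁) (1, t₂) (m2 _ ht₂) (sm, 1) (m1 _ hsm) (by
      simp [D]; nlinarith)
    rw [G2 t₁ ht₁, G2 t₂ ht₂, G1 sm hsm] at h4
    simp [D] at h4
    nlinarith
  · -- both into the second line
    exfalso
    obtain ⟨s', hs', hs1⟩ := exists_ne_one A' hA'
    obtain ⟨x, hx, hxo⟩ := gsurj (s', 1) ((mem_std A' T' _).2 (Or.inr (Or.inl ⟨rfl, hs'⟩)))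
    rcases (mem_std A T x).1 hx with h | ⟨h, h'⟩ | ⟨h, h'⟩
    · rw [h, g0] at hxo
      exact o2 (congrArg Prod.snd hxo)
    · rw [e1 x h] at hxo
      have := l1 _ h'
      rw [hxo] at this
      exact hs1 this
    · rw [e2 x h] at hxo
      have := l2 _ h'
      rw [hxo] at this
      exact hs1 this

end Pool.Agent.W348.C6.Rig2
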